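import Pool.Agent.Helper89.TQ.Spec

set_option autoImplicit false
set_option linter.unusedVariables false

namespace Pool.Agent.Helper47.TQ.CONV

open Finset Pool.Agent.R6.Trade Pool.Agent.Helper89.TQ

lemma ar1 (n0 n1 n2 l k1 k2 k3 x0 x1 x2 w0 w1 w2 y0 y1 y2 z0 z1 z2 : ℤ)
    (hl : 0 ≤ l) (h1 : 0 ≤ k1) (h2 : 0 ≤ k2) (h3 : 0 ≤ k3)
    (e0 : n0 = 2 * l + 3 + k1) (e1 : n1 = k2 + 3) (e2 : n2 = 2 * l + 5 + k3)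
    (hx0 : 0 ≤ x0 ∧ x0 ≤ n0) (hx1 : 0 ≤ x1 ∧ x1 ≤ n1) (hx2 : 0 ≤ x2 ∧ x2 ≤ n2)
    (hw0 : 0 ≤ w0 ∧ w0 ≤ n0) (hw1 : 0 ≤ w1 ∧ w1 ≤ n1) (hw2 : 0 ≤ w2 ∧ w2 ≤ n2)
    (hy0 : 0 ≤ y0 ∧ y0 ≤ n0) (hy1 : 0 ≤ y1 ∧ y1 ≤ n1) (hy2 : 0 ≤ y2 ∧ y2 ≤ n2)
    (hz0 : 0 ≤ z0 ∧ z0 ≤ n0) (hz1 : 0 ≤ z1 ∧ z1 ≤ n1) (hz2 : 0 ≤ z2 ∧ z2 ≤ n2)
    (s0 : x0 + w0 = y0 + z0) (s1 : x1 + w1 = y1 + z1) (s2 : x2 + w2 = y2 + z2)
    (X : (n0 - l - 1 ≤ x0 ∧ n0 - l - 1 + (n1 - 1) ≤ x0 + x1 ∧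
        n0 - l - 1 + (n1 - 1) + (n2 - l - 2) ≤ x0 + x1 + x2) ∨
      (n0 - 2 * l - 2 ≤ x0 ∧ n0 - 2 * l - 2 + (n1 - 1) ≤ x0 + x1 ∧
        n0 - 2 * l - 2 + (n1 - 1) + n2 ≤ x0 + x1 + x2))
    (V : (n0 - l - 1 ≤ w0 ∧ n0 - l - 1 + (n1 - 1) ≤ w0 + w1 ∧
        n0 - l - 1 + (n1 - 1) + (n2 - l - 2) ≤ w0 + w1 + w2) ∨
      (n0 - 2 * l - 2 ≤ w0 ∧ n0 - 2 * l - 2 + (n1 - 1) ≤ w0 + w1 ∧
        n0 - 2 * l - 2 + (n1 - 1) + n2 ≤ w0 + w1 + w2))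
    (Y1 : y0 < n0 - l - 1 ∨ y0 + y1 < n0 - l - 1 + (n1 - 1) ∨
        y0 + y1 + y2 < n0 - l - 1 + (n1 - 1) + (n2 - l - 2))
    (Y2 : y0 < n0 - 2 * l - 2 ∨ y0 + y1 < n0 - 2 * l - 2 + (n1 - 1) ∨
        y0 + y1 + y2 < n0 - 2 * l - 2 + (n1 - 1) + n2)
    (Z1 : z0 < n0 - l - 1 ∨ z0 + z1 < n0 - l - 1 + (n1 - 1) ∨
        z0 + z1 + z2 < n0 - l - 1 + (n1 - 1) + (n2 - l - 2))
    (Z2 : z0 < n0 - 2 * l - 2 ∨ z0 + z1 < n0 - 2 * l - 2 + (n1 - 1) ∨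
        z0 + z1 + z2 < n0 - 2 * l - 2 + (n1 - 1) + n2) : False := by
  rcases X with X | X <;> rcases V with V | V <;>
  rcases Y1 with Y1 | Y1 | Y1 <;> rcases Z1 with Z1 | Z1 | Z1 <;>
  rcases Y2 with Y2 | Y2 | Y2 <;> rcases Z2 with Z2 | Z2 | Z2 <;> omega

lemma ar2 (n0 n1 n2 l k1 k2 x0 x1 x2 w0 w1 w2 y0 y1 y2 z0 z1 z2 : ℤ)
    (hl : 0 ≤ l) (h1 : 0 ≤ k1) (h2 : 0 ≤ k2)
    (e0 : n0 = 2 * l + 3 + k1) (e1 : n1 = k2 + 3) (e2 : n2 = 2 * l + 5)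
    (hx0 : 0 ≤ x0 ∧ x0 ≤ n0) (hx1 : 0 ≤ x1 ∧ x1 ≤ n1) (hx2 : 0 ≤ x2 ∧ x2 ≤ n2)
    (hw0 : 0 ≤ w0 ∧ w0 ≤ n0) (hw1 : 0 ≤ w1 ∧ w1 ≤ n1) (hw2 : 0 ≤ w2 ∧ w2 ≤ n2)
    (hy0 : 0 ≤ y0 ∧ y0 ≤ n0) (hy1 : 0 ≤ y1 ∧ y1 ≤ n1) (hy2 : 0 ≤ y2 ∧ y2 ≤ n2)
    (hz0 : 0 ≤ z0 ∧ z0 ≤ n0) (hz1 : 0 ≤ z1 ∧ z1 ≤ n1) (hz2 : 0 ≤ z2 ∧ z2 ≤ n2)
    (s0 : x0 + w0 = y0 + z0) (s1 : x1 + w1 = y1 + z1) (s2 : x2 + w2 = y2 + z2)
    (X : (l + 1 ≤ x0 ∧ l + 1 + 1 ≤ x0 + x1 ∧ l + 1 + 1 + (l + 2) ≤ x0 + x1 + x2) ∨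
      (0 ≤ x0 ∧ 0 + 1 ≤ x0 + x1 ∧ 0 + 1 + (2 * l + 4) ≤ x0 + x1 + x2))
    (V : (l + 1 ≤ w0 ∧ l + 1 + 1 ≤ w0 + w1 ∧ l + 1 + 1 + (l + 2) ≤ w0 + w1 + w2) ∨
      (0 ≤ w0 ∧ 0 + 1 ≤ w0 + w1 ∧ 0 + 1 + (2 * l + 4) ≤ w0 + w1 + w2))
    (Y1 : y0 < l + 1 ∨ y0 + y1 < l + 1 + 1 ∨ y0 + y1 + y2 < l + 1 + 1 + (l + 2))
    (Y2 : y0 < 0 ∨ y0 + y1 < 0 + 1 ∨ y0 + y1 + y2 < 0 + 1 + (2 * l + 4))
    (Z1 : z0 < l + 1 ∨ z0 + z1 < l + 1 + 1 ∨ z0 + z1 + z2 < l + 1 + 1 + (l + 2))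
    (Z2 : z0 < 0 ∨ z0 + z1 < 0 + 1 ∨ z0 + z1 + z2 < 0 + 1 + (2 * l + 4)) : False := by
  rcases X with X | X <;> rcases V with V | V <;>
  rcases Y1 with Y1 | Y1 | Y1 <;> rcases Z1 with Z1 | Z1 | Z1 <;>
  rcases Y2 with Y2 | Y2 | Y2 <;> rcases Z2 with Z2 | Z2 | Z2 <;> omega

/-- no failing 2-trade of vectors -/
lemma two (n a b : Fin 3 → ℕ) (hM : Member n a b) (x w y z : Fin 3 → ℕ)
    (hx : ∀ i, x i ≤ n i) (hw : ∀ i, w i ≤ n i) (hy : ∀ i, y i ≤ n i) (hz : ∀ i, z i ≤ n i)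
    (hs : ∀ i, x i + w i = y i + z i) (X : Win a b x) (V : Win a b w) :
    Win a b y ∨ Win a b z := by
  by_contra hcon
  rw [not_or] at hcon
  obtain ⟨hY, hZ⟩ := hcon
  obtain ⟨k1, k2, k3, l, ⟨hn, ha, hb⟩ | ⟨hn, ha, hb⟩⟩ := hM
  · have n0 : n 0 = 2 * l + 3 + k1 := by rw [hn]; rfl
    have n1 : n 1 = k2 + 3 := by rw [hn]; rfl
    have n2 : n 2 = 2 * l + 5 + k3 := by rw [hn]; rfl
    have a0 : a 0 = n 0 - l - 1 := by rw [ha]; rfl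
    have a1 : a 1 = n 1 - 1 := by rw [ha]; rfl
    have a2 : a 2 = n 2 - l - 2 := by rw [ha]; rfl
    have b0 : b 0 = n 0 - 2 * l - 2 := by rw [hb]; rfl
    have b1 : b 1 = n 1 - 1 := by rw [hb]; rfl
    have b2 : b 2 = n 2 := by rw [hb]; rfl
    unfold Win GE at X V hY hZ
    have := hx 0; have := hx 1; have := hx 2
    have := hw 0; have := hw 1; have := hw 2
    have := hy 0; have := hy 1; have := hy 2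
    have := hz 0; have := hz 1; have := hz 2
    have := hs 0; have := hs 1; have := hs 2
    rw [a0, a1, a2, b0, b1, b2] at X V hY hZ
    clear hn ha hb a0 a1 a2 b0 b1 b2
    apply ar1 (n 0) (n 1) (n 2) l k1 k2 k3 (x 0) (x 1) (x 2) (w 0) (w 1) (w 2) (y 0) (y 1) (y 2)
      (z 0) (z 1) (z 2) <;> (clear hx hw hy hz hs; omega)
  · have n0 : n 0 = 2 * l + 3 + k1 := by rw [hn]; rfl
    have n1 : n 1 = k2 + 3 := by rw [hn]; rfl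
    have n2 : n 2 = 2 * l + 5 := by rw [hn]; rfl
    have a0 : a 0 = l + 1 := by rw [ha]; rfl
    have a1 : a 1 = 1 := by rw [ha]; rfl
    have a2 : a 2 = l + 2 := by rw [ha]; rfl
    have b0 : b 0 = 0 := by rw [hb]; rfl
    have b1 : b 1 = 1 := by rw [hb]; rfl
    have b2 : b 2 = 2 * l + 4 := by rw [hb]; rfl
    unfold Win GE at X V hY hZ
    have := hx 0; have := hx 1; have := hx 2
    have := hw 0; have := hw 1; have := hw 2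
    have := hy 0; have := hy 1; have := hy 2
    have := hz 0; have := hz 1; have := hz 2
    have := hs 0; have := hs 1; have := hs 2
    rw [a0, a1, a2, b0, b1, b2] at X V hY hZ
    clear hn ha hb a0 a1 a2 b0 b1 b2
    apply ar2 (n 0) (n 1) (n 2) l k1 k2 (x 0) (x 1) (x 2) (w 0) (w 1) (w 2) (y 0) (y 1) (y 2)
      (z 0) (z 1) (z 2) <;> (clear hx hw hy hz hs; omega)

/-- a failing 3-trade of vectors -/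
lemma three (n a b : Fin 3 → ℕ) (hM : Member n a b) :
    ∃ y : Fin 3 → Fin 3 → ℕ, (∀ i, a i ≤ n i) ∧ (∀ k i, y k i ≤ n i) ∧ (∀ k, ¬ Win a b (y k)) ∧
      ∀ i, a i + a i + a i = y 0 i + y 1 i + y 2 i := by
  obtain ⟨k1, k2, k3, l, ⟨hn, ha, hb⟩ | ⟨hn, ha, hb⟩⟩ := hM
  · have n0 : n 0 = 2 * l + 3 + k1 := by rw [hn]; rfl
    have n1 : n 1 = k2 + 3 := by rw [hn]; rfl
    have n2 : n 2 = 2 * l + 5 + k3 := by rw [hn]; rfl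
    refine ⟨![![n 0 - 2 * l - 3, n 1, n 2], ![n 0 - l, n 1 - 3, n 2 - l - 1],
      ![n 0, n 1, n 2 - 2 * l - 5]], ?_, ?_, ?_, ?_⟩
    · rw [ha]; intro i; fin_cases i <;> simp <;> omega
    · intro k i; fin_cases k <;> fin_cases i <;> simp <;> omega
    · intro k; rw [ha, hb]; unfold Win GE
      fin_cases k <;> simp <;> omega
    · rw [ha]; intro i; fin_cases i <;> simp <;> omega
  · have n0 : n 0 = 2 * l + 3 + k1 := by rw [hn]; rfl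
    have n1 : n 1 = k2 + 3 := by rw [hn]; rfl
    have n2 : n 2 = 2 * l + 5 := by rw [hn]; rfl
    refine ⟨![![0, 0, 2 * l + 5], ![l, 3, l + 1], ![2 * l + 3, 0, 0]], ?_, ?_, ?_, ?_⟩
    · rw [ha]; intro i; fin_cases i <;> simp <;> omega
    · intro k i; fin_cases k <;> fin_cases i <;> simp <;> omega
    · intro k; rw [ha, hb]; unfold Win GE
      fin_cases k <;> simp <;> omega
    · rw [ha]; intro i; fin_cases i <;> simp <;> omega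

theorem main : S_CONV := by
  intro N _ _ W τ a b hW hM
  refine ⟨?_, ?_⟩
  · intro j hj1 hj2 X Y hX hXY
    have hs : ∀ i, ∑ k, vec τ (X k) i = ∑ k, vec τ (Y k) i := by
      intro i
      rw [sum_vec, sum_vec]
      exact sum_congr rfl (fun v _ => hXY v)
    have hj : j = 1 ∨ j = 2 := by omega
    rcases hj with rfl | rfl
    · have h1 : vec τ (X 0) = vec τ (Y 0) := by
        funext i
        have := hs i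
        rwa [Fin.sum_univ_one, Fin.sum_univ_one] at this
      refine ⟨0, ?_⟩
      rw [hW, ← h1, ← hW]
      exact hX 0
    · have h2 := two (nn τ) a b hM (vec τ (X 0)) (vec τ (X 1)) (vec τ (Y 0)) (vec τ (Y 1))
        (vec_le τ _) (vec_le τ _) (vec_le τ _) (vec_le τ _) (fun i => by
          have := hs i
          rwa [Fin.sum_univ_two, Fin.sum_univ_two] at this) ((hW _).1 (hX 0)) ((hW _).1 (hX 1))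
      rcases h2 with h2 | h2
      · exact ⟨0, (hW _).2 h2⟩
      · exact ⟨1, (hW _).2 h2⟩
  · intro h3
    obtain ⟨y, ha, hy, hl, hs⟩ := three (nn τ) a b hM
    obtain ⟨g, hg⟩ := realize τ
    obtain ⟨X', hX'1, hX'2⟩ := hg 3 (fun _ => a) (fun k i => ha i)
    obtain ⟨Y', hY'1, hY'2⟩ := hg 3 y hy
    obtain ⟨k, hk⟩ := h3 3 (by norm_num) le_rfl X' Y' (fun k => by
      rw [hW, hX'1]; exact Or.inl ⟨le_rfl, le_rfl, le_rfl⟩) (fun v => by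
      rw [hX'2, hY'2]
      congr 1
      rw [Fin.sum_univ_three, Fin.sum_univ_three]
      exact hs (τ v))
    rw [hW, hY'1] at hk
    exact hl k hk

end Pool.Agent.Helper47.TQ.CONV
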